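import Pool.Agent.H31.SW.TargetsG

/-!
# Products of sums
-/

set_option autoImplicit false

namespace Pool.Agent.H34.SWL

open Pool.Agent.H31.SW

private lemma pe_fin (J : Type) : ∀ (n : ℕ) (f : Fin n → J → ℂ),
    (∀ i, Summable (fun j => ‖f i j‖)) →
    Summable (fun j : Fin n → J => ‖∏ i, f i (j i)‖) ∧
    ∏ i, ∑' j, f i j = ∑' j : Fin n → J, ∏ i, f i (j i)
  | 0, f, _ => by
    constructor
    · exact Summable.of_finite
    · simp only [Finset.univ_eq_empty, Finset.prod_empty]
      simp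
  | n + 1, f, hf => by
    obtain ⟨h1, h2⟩ := pe_fin J n (fun i => f i.succ) (fun i => hf i.succ)
    have hm := (hf 0).mul_norm h1
    have hprod : ∀ q : J × (Fin n → J),
        ∏ i, f i ((Fin.consEquiv (fun _ => J) q) i) = f 0 q.1 * ∏ i : Fin n, f i.succ (q.2 i) := by
      intro q
      rw [Fin.prod_univ_succ]
      rfl
    constructor
    · rw [← (Fin.consEquiv (fun _ : Fin (n + 1) => J)).summable_iff]
      refine hm.congr fun q => ?_
      simp only [Function.comp_apply]
      rw [hprod q]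
    · rw [Fin.prod_univ_succ, h2, tsum_mul_tsum_of_summable_norm (hf 0) h1,
        ← (Fin.consEquiv (fun _ : Fin (n + 1) => J)).tsum_eq]
      exact tsum_congr fun q => (hprod q).symm

private lemma pe_tr (ι J : Type) [Fintype ι] (n : ℕ) (e : ι ≃ Fin n) (f : ι → J → ℂ)
    (hf : ∀ i, Summable (fun j => ‖f i j‖)) :
    Summable (fun j : ι → J => ‖∏ i, f i (j i)‖) ∧
    ∏ i, ∑' j, f i j = ∑' j : ι → J, ∏ i, f i (j i) := by
  obtain ⟨h1, h2⟩ := pe_fin J n (fun i => f (e.symm i)) (fun i => hf _)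
  have hE : ∀ j : ι → J, ∏ i, f (e.symm i) (Equiv.arrowCongr e (Equiv.refl J) j i) =
      ∏ i, f i (j i) := by
    intro j
    exact Equiv.prod_comp e.symm (fun i => f i (j i))
  constructor
  · have h := h1.comp_injective (Equiv.arrowCongr e (Equiv.refl J)).injective
    refine h.congr fun j => ?_
    rw [Function.comp_apply, hE j]
  · have h3 := (Equiv.arrowCongr e (Equiv.refl J)).tsum_eq (fun j => ∏ i, f (e.symm i) (j i))
    have h4 : ∏ i, ∑' j, f (e.symm i) j = ∏ i, ∑' j, f i j :=
      Equiv.prod_comp e.symm (fun i => ∑' j, f i j)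
    rw [← h4, h2, ← h3]
    exact tsum_congr fun j => hE j

theorem pf_PE : W_PE := by
  intro ι J _ _ f hf
  exact pe_tr ι J _ (Fintype.equivFin ι) f hf

end Pool.Agent.H34.SWL
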