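import Pool.Agent.H31.SW.TargetsA
import Pool.Agent.H31.SW.TargetsG
import Pool.Agent.H28.RC.Targets1

/-!
# The sum over the residue classes
-/

set_option autoImplicit false

open NumberField NumberField.InfinitePlace MeasureTheory Set Filter Complex
open scoped nonZeroDivisors ENNReal

namespace Pool.Agent.H34.SWL

open Pool.Agent.H31.SW
open Pool.Agent.H25.HK Pool.Agent.H23.LB
open Pool.Agent.H28.RC (Rep T_RX)
open Pool.Agent.H29.DW (Rl wv Pos rv)

section

variable {K : Type} [Field K] [NumberField K]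

private lemma rs_le (f : Ideal (𝓞 K)) (M : FI K) : (f : FI K) * M ≤ M := by
  calc (f : FI K) * M ≤ 1 * M := by
        gcongr
        exact FractionalIdeal.coeIdeal_le_one
    _ = M := one_mul M

/-- a set of representatives gives a decomposition -/
private noncomputable def rsEquiv {f : Ideal (𝓞 K)} {M : FI K} {X : Finset K}
    (h : Rep K f M X) :
    ({r : K // r ∈ X} × {l : K // l ∈ (f : FI K) * M}) ≃ {x : K // x ∈ M} :=
  Equiv.ofBijective (fun p => ⟨p.1.1 + p.2.1,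
      M.coeToSubmodule.add_mem (h.1 _ p.1.2) (rs_le f M p.2.2)⟩) (by
    constructor
    · rintro ⟨⟨r, hr⟩, ⟨l, hl⟩⟩ ⟨⟨r', hr'⟩, ⟨l', hl'⟩⟩ hp
      have h1 : r + l = r' + l' := congrArg Subtype.val hp
      have hx : r + l ∈ M := M.coeToSubmodule.add_mem (h.1 _ hr) (rs_le f M hl)
      obtain ⟨s, -, hs⟩ := h.2 (r + l) hx
      have h2 : r = s := hs r ⟨hr, by rwa [add_sub_cancel_left]⟩
      have h3 : r' = s := hs r' ⟨hr', by rwa [h1, add_sub_cancel_left]⟩
      have h4 : r = r' := h2.trans h3.symm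
      subst h4
      have h5 : l = l' := add_left_cancel h1
      subst h5
      rfl
    · rintro ⟨x, hx⟩
      obtain ⟨r, ⟨hr, hr'⟩, -⟩ := h.2 x hx
      exact ⟨⟨⟨r, hr⟩, ⟨x - r, hr'⟩⟩, Subtype.ext (add_sub_cancel r x)⟩)

private lemma rsEquiv_apply {f : Ideal (𝓞 K)} {M : FI K} {X : Finset K} (h : Rep K f M X)
    (p : {r : K // r ∈ X} × {l : K // l ∈ (f : FI K) * M}) :
    ((rsEquiv h p : {x : K // x ∈ M}) : K) = p.1.1 + p.2.1 := rfl

/-- the density of the sublattice -/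
private lemma rs_DD (j : Ideal (𝓞 K)) (M : FI K) (y : InfinitePlace K → ℝ) :
    DD ((j : FI K) * M) y = DD M y / Nf K j := by
  unfold DD Nf
  rw [map_mul, FractionalIdeal.coeIdeal_absNorm]
  push_cast
  rw [div_div, mul_comm ((Ideal.absNorm j : ℕ) : ℝ)]

/-- the abstract sum over the residue classes -/
private lemma rs_sum (j : Ideal (𝓞 K)) (M : FI K) (X : Finset K) (hX : Rep K j M X)
    (cc P : K → ℂ) (E B : ℝ)
    (hfin : {x : {x : K // x ∈ M} | P x ≠ 0}.Finite)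
    (hcc : ∀ x ∈ M, ∀ l ∈ (j : FI K) * M, cc (x + l) = cc x) (hE : ∀ x ∈ M, ‖cc x‖ ≤ E)
    (hB : ∀ r : K, ‖∑' l : {l : K // l ∈ (j : FI K) * M}, P (r + l)‖ ≤ B) :
    ‖∑' x : {x : K // x ∈ M}, cc x * P x‖ ≤ X.card * (E * B) := by
  have hs : Summable (fun x : {x : K // x ∈ M} => cc x * P x) := by
    refine summable_of_hasFiniteSupport (hfin.subset fun x hx => ?_)
    intro h
    apply hx
    change cc x * P x = 0
    rw [h, mul_zero]
  have hs2 : Summable (fun q : {r : K // r ∈ X} × {l : K // l ∈ (j : FI K) * M} =>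
      cc (q.1.1 + q.2.1) * P (q.1.1 + q.2.1)) := by
    refine (hs.comp_injective (rsEquiv hX).injective).congr fun q => ?_
    rw [Function.comp_apply, rsEquiv_apply hX q]
  have h1 : ∑' x : {x : K // x ∈ M}, cc x * P x =
      ∑' q : {r : K // r ∈ X} × {l : K // l ∈ (j : FI K) * M},
        cc (q.1.1 + q.2.1) * P (q.1.1 + q.2.1) := by
    rw [← (rsEquiv hX).tsum_eq (fun x : {x : K // x ∈ M} => cc x * P x)]
    refine tsum_congr fun q => ?_
    rw [rsEquiv_apply hX q]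
  have h2 : ∀ r : {r : K // r ∈ X},
      ∑' l : {l : K // l ∈ (j : FI K) * M}, cc (r.1 + l.1) * P (r.1 + l.1) =
        cc r.1 * ∑' l : {l : K // l ∈ (j : FI K) * M}, P (r.1 + l.1) := by
    intro r
    rw [← tsum_mul_left]
    refine tsum_congr fun l => ?_
    rw [hcc r.1 (hX.1 _ r.2) l.1 l.2]
  rw [h1, hs2.tsum_prod, tsum_fintype]
  simp only [h2]
  refine (norm_sum_le _ _).trans ?_
  have h3 : ∀ r ∈ (Finset.univ : Finset {r : K // r ∈ X}),
      ‖cc r.1 * ∑' l : {l : K // l ∈ (j : FI K) * M}, P (r.1 + l.1)‖ ≤ E * B := by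
    intro r _
    rw [norm_mul]
    exact mul_le_mul (hE _ (hX.1 _ r.2)) (hB r.1) (norm_nonneg _)
      ((norm_nonneg _).trans (hE _ (hX.1 _ r.2)))
  refine (Finset.sum_le_card_nsmul _ _ _ h3).trans (le_of_eq ?_)
  rw [nsmul_eq_mul, Finset.card_univ, Fintype.card_coe]

end

theorem pf_RS (hCU : W_CU) (hME : W_ME) (hRX : T_RX) : W_RS := by
  intro n p hn hp
  obtain ⟨C, hC, hC'⟩ := hME n p hn hp
  refine ⟨C, hC, ?_⟩
  intro K _ _ hK j M cc y ω c E hj hM hω hc hper hE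
  obtain ⟨X, hX, hXc⟩ := hRX K j M hj hM
  have hL : (j : FI K) * M ≠ 0 :=
    mul_ne_zero (by rwa [Ne, FractionalIdeal.coeIdeal_eq_zero]) hM
  obtain ⟨C₂, -, hC₂⟩ := hCU n hn
  have hfin : {x : {x : K // x ∈ M} | pF (fun v => GG (p (rv v)) (c v)) y ω x ≠ 0}.Finite := by
    have h1 := (hC₂ K hK M y ω (fun _ => 1) (fun _ => 1 / 10000) hM hω
      (fun _ => by norm_num)).1
    refine Set.Finite.of_finite_image (f := Subtype.val) (h1.subset ?_)
      Subtype.val_injective.injOn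
    rintro _ ⟨x, hx, rfl⟩
    refine ⟨x.2, fun v => ?_⟩
    by_contra hv
    apply hx
    unfold pF
    refine Finset.prod_eq_zero (Finset.mem_univ v) ?_
    change EE (c v * Complex.log (wv v x.1 y ω)) * p (rv v) (wv v x.1 y ω - 1) = 0
    rw [hp.2 _ _ (not_le.1 hv), mul_zero]
  have hB : ∀ r : K, ‖∑' l : {l : K // l ∈ (j : FI K) * M},
      pF (fun v => GG (p (rv v)) (c v)) y ω (r + l)‖ ≤
      C * dK K ^ (5 / 4 : ℝ) * (1 + DD M y / Nf K j) ^ (1 / 2 : ℝ) *
        PP (fun v => 1 + ‖c v‖) ^ (27 / 164 : ℝ) *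
          (1 + DD M y / Nf K j / PP (fun v => 1 + ‖c v‖) ^ (1 / 2 : ℝ)) ^ (3 / 4 : ℝ) := by
    intro r
    have h := hC' K hK ((j : FI K) * M) y ω c r hL hω hc
    rwa [rs_DD j M y] at h
  have h := rs_sum j M X hX cc (pF (fun v => GG (p (rv v)) (c v)) y ω) E _ hfin hper hE hB
  refine h.trans (le_of_eq ?_)
  rw [hXc]
  unfold Nf
  ring

end Pool.Agent.H34.SWL
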